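import Pool.Agent.R793.KamekoFinal

/-!
# Kameko's squaring operation on coinvariants is not injective for `d ≥ 4`

`SquaringInjective d n` says that the map `𝔽₂ ⊗_{GL_d} PH_n → 𝔽₂ ⊗_{GL_d} PH_{d+2n}` induced by Kameko's
map on the coinvariants of the primitive part of the homology of `B(ℤ/2)^d` is injective (definitions
in `Pool.Agent.R793.KamekoDefs`; that Kameko's map is equivariant and preserves primitives, and that
`SquaringInjective d n` is the injectivity of the induced map of quotient spaces, is proved in
`Pool.Agent.R793.KamekoMap` and `squaringInjective_iff` of `Pool.Agent.R793.KamekoFinal`).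

* It is not injective in degree `n = 0`, for every `d ≥ 4`.
* It is not injective in the positive degrees `n = 2 ^ j - 1`, `j ≥ d`, for every `d ≥ 5`.

Proof: with the first four exponents `1`, the class of `a_1 a_2 a_3 a_4 ⋯` vanishes in the
coinvariants (an explicit chain of transvections starting with `a_1^(3) a_2`), so the classes of
`a^(0) ⋯ a^(0) a^(2 ^ j - 1)` are killed. That this class is nonzero is shown by an explicit polynomial
`∑ x_{i_1} x_{i_2}^2 x_{i_3}^4 ⋯` (sum over the nonempty sets of variables) which is invariant modulo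
hit polynomials, for `j ≥ d`.
-/

set_option autoImplicit false

namespace Pool.Agent.Results.MP_ca28bb_gt.SquaringNotInjective

open Pool.Agent.R793.Kameko

/-- Kameko's squaring operation `𝔽₂ ⊗_{GL_d} PH_n → 𝔽₂ ⊗_{GL_d} PH_{d+2n}` is not injective for
`n = 0` and every `d ≥ 4`, and it is not injective for `n = 2 ^ j - 1` and all `j ≥ d ≥ 5`. -/
theorem result :
    (∀ d : ℕ, 4 ≤ d → ¬ SquaringInjective d 0) ∧
    (∀ d : ℕ, 5 ≤ d → ∀ j : ℕ, d ≤ j → ¬ SquaringInjective d (2 ^ j - 1)) :=
  ⟨fun d hd h => not_inj_zero d hd ((squaringInjective_iff d 0).1 h),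
    fun d hd j hj h => not_inj_pos d j hd hj ((squaringInjective_iff d _).1 h)⟩

end Pool.Agent.Results.MP_ca28bb_gt.SquaringNotInjective
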